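import Mathlib
import Pool.Agent.H17.Str2
import Pool.Agent.H17.Str4

namespace Pool.Agent.H17.Str

open Pool.Agent.H17.Newton

theorem main : ∃ A : Matrix (Fin 5) (Fin 5) ℝ, IsStrictGKK A ∧ IsTau A ∧
    ∃ z ∈ spectrum ℂ (A.map (algebraMap ℝ ℂ)), z.re ≤ 0 := by
  refine ⟨BB, isStrict, isTau, ?_⟩
  have := unstable
  unfold IsStable at this
  push Not at this
  exact this

end Pool.Agent.H17.Str

namespace Pool.Agent.Results.MP_25f4f2_al.Unstable

open Pool.Agent.H17.Newton Pool.Agent.H17.Str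

/-- There is a real `5 × 5` strict GKK matrix which is a `τ`-matrix and has an eigenvalue with
nonpositive real part. -/
theorem result : ∃ A : Matrix (Fin 5) (Fin 5) ℝ, IsStrictGKK A ∧ IsTau A ∧
    ∃ z ∈ spectrum ℂ (A.map (algebraMap ℝ ℂ)), z.re ≤ 0 := main

end Pool.Agent.Results.MP_25f4f2_al.Unstable
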